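import Mathlib

/-!
# The rank of the Gram matrix of the permutations of tensors
-/

set_option autoImplicit false

namespace Pool.Agent.N64.SubT4

open Matrix Finset

/-- the rank of a matrix does not change under extension of the field -/
theorem rank_map_hom {F K : Type*} [Field F] [Field K] {m : Type*} [Fintype m] [DecidableEq m]
    (φ : F →+* K) (M : Matrix m m F) : (M.map φ).rank = M.rank := by
  classical
  obtain ⟨V, U, e, hV, hU, h⟩ := Matrix.exists_rank_normal_form M
  have h1 : V.map φ * M.map φ * U.map φ =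
      ((fromBlocks 1 0 0 0 : Matrix (Fin M.rank ⊕ Fin (Fintype.card m - M.rank))
        (Fin M.rank ⊕ Fin (Fintype.card m - M.rank)) K)).submatrix e e := by
    rw [← Matrix.map_mul, ← Matrix.map_mul, h]
    ext i j
    simp only [Matrix.map_apply, Matrix.submatrix_apply]
    rcases e i with a | a <;> rcases e j with b | b <;>
      simp [Matrix.one_apply, apply_ite φ]
  have hV' : IsUnit (V.map φ).det := by
    have := ((isUnit_iff_isUnit_det _).1 hV).map φ
    rwa [RingHom.map_det, RingHom.mapMatrix_apply] at this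
  have hU' : IsUnit (U.map φ).det := by
    have := ((isUnit_iff_isUnit_det _).1 hU).map φ
    rwa [RingHom.map_det, RingHom.mapMatrix_apply] at this
  have h2 : (V.map φ * M.map φ * U.map φ).rank = (M.map φ).rank := by
    rw [rank_mul_eq_left_of_isUnit_det _ _ hU', rank_mul_eq_right_of_isUnit_det _ _ hV']
  rw [← h2, h1, Matrix.rank_submatrix]
  have h3 : (fromBlocks 1 0 0 0 : Matrix (Fin M.rank ⊕ Fin (Fintype.card m - M.rank))
        (Fin M.rank ⊕ Fin (Fintype.card m - M.rank)) K) =
      Matrix.diagonal (Sum.elim (fun _ => 1) (fun _ => 0)) := by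
    ext i j
    rcases i with a | a <;> rcases j with b | b <;> simp [Matrix.one_apply, Matrix.diagonal_apply]
  rw [h3, Matrix.rank_diagonal]
  have h4 : Fintype.card {i : Fin M.rank ⊕ Fin (Fintype.card m - M.rank) //
      (Sum.elim (fun _ => (1 : K)) (fun _ => 0)) i ≠ 0} = Fintype.card (Fin M.rank) := by
    symm
    refine Fintype.card_congr (Equiv.ofBijective
      (fun a => ⟨Sum.inl a, by simp⟩) ⟨fun a b hab => ?_, ?_⟩)
    · exact Sum.inl_injective (congrArg Subtype.val hab)
    · rintro ⟨a | b, hx⟩
      · exact ⟨a, rfl⟩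
      · simp at hx
  rw [h4, Fintype.card_fin]

/-- the trace inequality for real symmetric matrices -/
theorem trace_sq_le {m : Type*} [Fintype m] [DecidableEq m] (A : Matrix m m ℝ) (hA : A.IsHermitian) :
    A.trace ^ 2 ≤ A.rank * (A * A).trace := by
  have h1 : A.trace = ∑ i, hA.eigenvalues i := by
    have := hA.trace_eq_sum_eigenvalues
    simpa using this
  have h2 : (A * A).trace = ∑ i, hA.eigenvalues i ^ 2 := by
    have hs := hA.spectral_theorem
    set U := hA.eigenvectorUnitary with hU
    set D : Matrix m m ℝ := diagonal (RCLike.ofReal ∘ hA.eigenvalues) with hD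
    have h3 : A * A = Unitary.conjStarAlgAut ℝ _ U (D * D) := by
      rw [map_mul, ← hs]
    rw [h3, Unitary.conjStarAlgAut_apply, Matrix.trace_mul_cycle, ← mul_assoc]
    have h4 : (star (U : Matrix m m ℝ)) * (U : Matrix m m ℝ) = 1 := Unitary.coe_star_mul_self U
    rw [h4, one_mul, hD, diagonal_mul_diagonal, trace_diagonal]
    refine Finset.sum_congr rfl fun i _ => ?_
    simp [sq]
  have h3 : (A.rank : ℝ) = ((univ.filter fun i => hA.eigenvalues i ≠ 0).card : ℝ) := by
    rw [hA.rank_eq_card_non_zero_eigs, Fintype.card_subtype]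
  rw [h1, h2, h3]
  have h4 : ∑ i, hA.eigenvalues i = ∑ i ∈ univ.filter (fun i => hA.eigenvalues i ≠ 0), hA.eigenvalues i := by
    rw [Finset.sum_filter_ne_zero]
  rw [h4]
  refine (sq_sum_le_card_mul_sum_sq).trans ?_
  refine mul_le_mul_of_nonneg_left ?_ (by positivity)
  exact Finset.sum_le_sum_of_subset_of_nonneg (Finset.filter_subset _ _) fun i _ _ => sq_nonneg _

section count

variable {n : ℕ} {C : Type*} [Fintype C] [DecidableEq C]

/-- functions with the same fibre sizes differ by a permutation -/
theorem exists_perm (F G : Fin n → C)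
    (h : ∀ c, (univ.filter fun i => F i = c).card = (univ.filter fun i => G i = c).card) :
    ∃ σ : Equiv.Perm (Fin n), F ∘ σ = G := by
  have h1 : ∀ c, Fintype.card {i // G i = c} = Fintype.card {i // F i = c} := by
    intro c
    rw [Fintype.card_subtype, Fintype.card_subtype, h c]
  refine ⟨Equiv.ofFiberEquiv (f := G) (g := F) (fun c => Fintype.equivOfCardEq (h1 c)), ?_⟩
  funext a
  exact Equiv.ofFiberEquiv_map _ a

/-- the number of pairs `(F, ρ)` with `F ∘ ρ = F` -/
theorem count_pairs : ∑ F : Fin n → C, (univ.filter fun ρ : Equiv.Perm (Fin n) => F ∘ ρ = F).card ≤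
    (n + 1) ^ Fintype.card C * n.factorial := by
  classical
  let T : (Fin n → C) → (C → Fin (n + 1)) := fun F c =>
    ⟨(univ.filter fun i => F i = c).card, by
      have := Finset.card_le_univ (univ.filter fun i => F i = c)
      rw [Fintype.card_fin] at this
      omega⟩
  rw [← Finset.sum_fiberwise_of_maps_to (s := univ) (t := univ) (g := T) (fun _ _ => mem_univ _)]
  have hT : (univ : Finset (C → Fin (n + 1))).card = (n + 1) ^ Fintype.card C := by
    rw [Finset.card_univ, Fintype.card_fun, Fintype.card_fin]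
  rw [← hT, ← smul_eq_mul, ← Finset.sum_const]
  refine Finset.sum_le_sum fun t _ => ?_
  by_cases hne : (univ.filter fun F => T F = t).Nonempty
  · obtain ⟨F0, hF0⟩ := hne
    rw [mem_filter] at hF0
    have hex : ∀ F : Fin n → C, T F = t → ∃ σ : Equiv.Perm (Fin n), F0 ∘ σ = F := by
      intro F hF
      apply exists_perm
      intro c
      have := congrArg (fun g => (g c).val) (hF0.2.trans hF.symm)
      exact this
    choose! s hs using hex
    rw [← Finset.card_sigma]
    have hcard : n.factorial = (univ : Finset (Equiv.Perm (Fin n))).card := by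
      rw [Finset.card_univ, Fintype.card_perm, Fintype.card_fin]
    rw [hcard]
    refine Finset.card_le_card_of_injOn (fun x => x.2.trans (s x.1)) (fun _ _ => mem_univ _) ?_
    rintro ⟨F, ρ⟩ h1 ⟨F', ρ'⟩ h2 h12
    simp only [coe_sigma, Set.mem_sigma_iff, coe_filter, mem_univ, true_and, Set.mem_ofPred_eq] at h1 h2
    simp only at h12
    have e1 : F0 ∘ (ρ.trans (s F)) = F := by
      rw [Equiv.coe_trans, ← Function.comp_assoc, hs F h1.1]
      exact h1.2
    have e2 : F0 ∘ (ρ'.trans (s F')) = F' := by
      rw [Equiv.coe_trans, ← Function.comp_assoc, hs F' h2.1]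
      exact h2.2
    have e3 : F = F' := by rw [← e1, ← e2, h12]
    subst e3
    have e4 : ρ = ρ' := by
      apply Equiv.ext
      intro a
      have := congrArg (fun q : Equiv.Perm (Fin n) => q a) h12
      simp only [Equiv.trans_apply] at this
      exact (s F).injective this
    subst e4
    rfl
  · rw [Finset.not_nonempty_iff_eq_empty] at hne
    rw [hne, Finset.sum_empty]
    exact Nat.zero_le _

end count

/-- the number of the functions `f` with `f ∘ σ = f ∘ τ` -/
def cnt (B : Type*) [Fintype B] [DecidableEq B] (n : ℕ) (σ τ : Equiv.Perm (Fin n)) : ℕ :=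
  (univ.filter fun f : Fin n → B => f ∘ σ = f ∘ τ).card

variable (B : Type*) [Fintype B] [DecidableEq B] (n : ℕ)

theorem cnt_symm (σ τ : Equiv.Perm (Fin n)) : cnt B n σ τ = cnt B n τ σ := by
  unfold cnt
  congr 1
  ext f
  simp only [mem_filter, mem_univ, true_and]
  exact eq_comm

theorem cnt_self (σ : Equiv.Perm (Fin n)) : cnt B n σ σ = Fintype.card B ^ n := by
  unfold cnt
  simp

/-- the squares of the entries -/
theorem cnt_sq (σ τ : Equiv.Perm (Fin n)) : cnt B n σ τ ^ 2 = cnt (B × B) n σ τ := by
  unfold cnt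
  rw [sq, ← Finset.card_product]
  refine Finset.card_bij' (fun x _ => fun i => (x.1 i, x.2 i))
    (fun F _ => (fun i => (F i).1, fun i => (F i).2)) ?_ ?_ ?_ ?_
  · rintro ⟨f, g⟩ h
    simp only [mem_product, mem_filter, mem_univ, true_and] at h ⊢
    funext i
    have h1 := congrFun h.1 i
    have h2 := congrFun h.2 i
    simp only [Function.comp] at h1 h2 ⊢
    rw [h1, h2]
  · intro F h
    simp only [mem_product, mem_filter, mem_univ, true_and] at h ⊢
    constructor
    · funext i
      exact congrArg Prod.fst (congrFun h i)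
    · funext i
      exact congrArg Prod.snd (congrFun h i)
  · rintro ⟨f, g⟩ _
    rfl
  · intro F _
    rfl

/-- the sum of the entries -/
theorem cnt_sum {C : Type*} [Fintype C] [DecidableEq C] :
    ∑ σ : Equiv.Perm (Fin n), ∑ τ : Equiv.Perm (Fin n), cnt C n σ τ ≤
      n.factorial * ((n + 1) ^ Fintype.card C * n.factorial) := by
  classical
  have h1 : ∀ σ τ : Equiv.Perm (Fin n), cnt C n σ τ =
      (univ.filter fun F : Fin n → C => F ∘ (σ.symm.trans τ) = F).card := by
    intro σ τ
    unfold cnt
    congr 1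
    ext F
    simp only [mem_filter, mem_univ, true_and]
    constructor
    · intro h
      funext i
      have := congrFun h (σ.symm i)
      simp only [Function.comp, Equiv.apply_symm_apply] at this
      simp only [Function.comp, Equiv.trans_apply]
      exact this.symm
    · intro h
      funext i
      have := congrFun h (σ i)
      simp only [Function.comp, Equiv.trans_apply, Equiv.symm_apply_apply] at this
      simp only [Function.comp]
      exact this.symm
  have h2 : ∀ σ : Equiv.Perm (Fin n), ∑ τ : Equiv.Perm (Fin n), cnt C n σ τ ≤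
      (n + 1) ^ Fintype.card C * n.factorial := by
    intro σ
    refine le_trans (le_of_eq ?_) (count_pairs (n := n) (C := C))
    simp_rw [h1 σ]
    rw [Fintype.sum_equiv (Equiv.mulRight σ⁻¹ : Equiv.Perm (Fin n) ≃ Equiv.Perm (Fin n))
      (fun τ : Equiv.Perm (Fin n) => (univ.filter fun F : Fin n → C => F ∘ (σ.symm.trans τ) = F).card)
      (fun ρ : Equiv.Perm (Fin n) => (univ.filter fun F : Fin n → C => F ∘ ρ = F).card)]
    · simp_rw [Finset.card_filter]
      exact Finset.sum_comm
    · intro τ
      rfl
  calc _ ≤ ∑ _σ : Equiv.Perm (Fin n), (n + 1) ^ Fintype.card C * n.factorial :=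
        Finset.sum_le_sum fun σ _ => h2 σ
    _ = _ := by
        rw [Finset.sum_const, Finset.card_univ, Fintype.card_perm, Fintype.card_fin, smul_eq_mul]

/-- **The rank of the Gram matrix.** -/
theorem perm_gram (B : Type*) [Fintype B] [DecidableEq B] (K : Type*) [Field K] [CharZero K] (n : ℕ) :
    (Fintype.card B) ^ (2 * n) ≤ (n + 1) ^ (Fintype.card B ^ 2) *
      (Matrix.of fun σ τ : Equiv.Perm (Fin n) =>
        ((Finset.univ.filter fun f : Fin n → B => f ∘ σ = f ∘ τ).card : K)).rank := by
  classical
  set GQ : Matrix (Equiv.Perm (Fin n)) (Equiv.Perm (Fin n)) ℚ :=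
    Matrix.of fun σ τ => (cnt B n σ τ : ℚ) with hGQ
  have hK : (Matrix.of fun σ τ : Equiv.Perm (Fin n) =>
        ((Finset.univ.filter fun f : Fin n → B => f ∘ σ = f ∘ τ).card : K)) =
      GQ.map (algebraMap ℚ K) := by
    ext σ τ
    simp [hGQ, cnt]
  set GR : Matrix (Equiv.Perm (Fin n)) (Equiv.Perm (Fin n)) ℝ :=
    Matrix.of fun σ τ => (cnt B n σ τ : ℝ) with hGR
  have hR : GR = GQ.map (algebraMap ℚ ℝ) := by
    ext σ τ
    simp [hGQ, hGR]
  have hrank : GR.rank = (GQ.map (algebraMap ℚ K)).rank := by
    rw [hR, rank_map_hom, rank_map_hom]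
  rw [hK, ← hrank]
  have hherm : GR.IsHermitian := by
    ext σ τ
    simp only [hGR, Matrix.conjTranspose_apply, Matrix.of_apply, star_trivial]
    rw [cnt_symm]
  have h1 := trace_sq_le GR hherm
  have htr : GR.trace = (n.factorial : ℝ) * (Fintype.card B : ℝ) ^ n := by
    simp only [Matrix.trace, Matrix.diag, hGR, Matrix.of_apply, cnt_self]
    rw [Finset.sum_const, Finset.card_univ, Fintype.card_perm, Fintype.card_fin, nsmul_eq_mul]
    push_cast
    ring
  have htr2 : (GR * GR).trace ≤ (n.factorial : ℝ) * (((n : ℝ) + 1) ^ (Fintype.card B ^ 2) * n.factorial) := by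
    have e1 : (GR * GR).trace = ((∑ σ : Equiv.Perm (Fin n), ∑ τ : Equiv.Perm (Fin n),
        cnt (B × B) n σ τ : ℕ) : ℝ) := by
      simp only [Matrix.trace, Matrix.diag, Matrix.mul_apply, hGR, Matrix.of_apply]
      push_cast
      refine Finset.sum_congr rfl fun σ _ => Finset.sum_congr rfl fun τ _ => ?_
      rw [cnt_symm B n τ σ, ← cnt_sq]
      push_cast
      ring
    rw [e1]
    have e2 := cnt_sum n (C := B × B)
    rw [Fintype.card_prod, ← sq] at e2
    exact_mod_cast e2
  have hf : (0 : ℝ) < (n.factorial : ℝ) := by exact_mod_cast n.factorial_pos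
  have h2 : ((n.factorial : ℝ) ^ 2) * (Fintype.card B : ℝ) ^ (2 * n) ≤
      (n.factorial : ℝ) ^ 2 * (((n : ℝ) + 1) ^ (Fintype.card B ^ 2) * GR.rank) := by
    calc ((n.factorial : ℝ) ^ 2) * (Fintype.card B : ℝ) ^ (2 * n) = GR.trace ^ 2 := by
          rw [htr, mul_pow, mul_comm 2 n, pow_mul]
      _ ≤ GR.rank * (GR * GR).trace := h1
      _ ≤ GR.rank * ((n.factorial : ℝ) * (((n : ℝ) + 1) ^ (Fintype.card B ^ 2) * n.factorial)) := by
          gcongr
      _ = _ := by ring
  have h3 := le_of_mul_le_mul_left h2 (by positivity)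
  exact_mod_cast h3

end Pool.Agent.N64.SubT4
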